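import Pool.Agent.V5helper17.ZD.UP

set_option autoImplicit false

open scoped InnerProductSpace

namespace Pool.Agent.Q169.ZD

open Pool.Agent.H496R3.ZS (Ell permIso dl dl_apply inner_dl_left)

noncomputable section

open scoped Classical

namespace F17

variable {X : Type}

/-- evaluation at a point -/
def ev (p : X) : Ell X →ₗ[ℂ] ℂ where
  toFun F := F p
  map_add' _ _ := rfl
  map_smul' _ _ := rfl

theorem ev_apply (p : X) (F : Ell X) : ev p F = F p := rfl

theorem fs_zero : FS (0 : Ell X →L[ℂ] Ell X) := by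
  intro F _
  have : (Function.support fun p => (0 : Ell X →L[ℂ] Ell X) F p) = ∅ := by
    ext p
    simp only [Function.mem_support, Set.mem_empty_iff_false, iff_false, not_not]
    rfl
  rw [this]
  exact Set.finite_empty

theorem fs_add {x y : Ell X →L[ℂ] Ell X} (hx : FS x) (hy : FS y) : FS (x + y) := by
  intro F hF
  refine ((hx F hF).union (hy F hF)).subset fun p hp => ?_
  by_contra h
  simp only [Set.mem_union, Function.mem_support, not_or, not_not] at h
  apply hp
  change x F p + y F p = 0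
  rw [h.1, h.2, add_zero]

theorem fs_smul {x : Ell X →L[ℂ] Ell X} (c : ℂ) (hx : FS x) : FS (c • x) := by
  intro F hF
  refine (hx F hF).subset fun p hp => ?_
  intro h
  apply hp
  have h' : x F p = 0 := h
  change c * x F p = 0
  rw [h', mul_zero]

theorem fs_comp {x y : Ell X →L[ℂ] Ell X} (hx : FS x) (hy : FS y) : FS (x ∘L y) :=
  fun F hF => hx (y F) (hy F hF)

theorem fs_sum {ι : Type} (s : Finset ι) (x : ι → Ell X →L[ℂ] Ell X) (hx : ∀ i ∈ s, FS (x i)) :
    FS (∑ i ∈ s, x i) := by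
  induction s using Finset.induction_on with
  | empty => rw [Finset.sum_empty]; exact fs_zero
  | insert a s ha ih =>
    rw [Finset.sum_insert ha]
    exact fs_add (hx a (Finset.mem_insert_self a s))
      (ih fun i hi => hx i (Finset.mem_insert_of_mem hi))

theorem fs_msk (A : Set X) : FS (msk A) := by
  intro F hF
  refine hF.subset fun p hp h => hp ?_
  have h' : F p = 0 := h
  change msk A F p = 0
  rw [msk_apply, h']
  simp

theorem fs_pm (σ : Equiv.Perm X) : FS (pm σ) := by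
  intro F hF
  have : (Function.support fun p => pm σ F p) = σ ⁻¹' (Function.support fun p => F p) := rfl
  rw [this]
  exact hF.preimage σ.injective.injOn

end F17

section

variable {G : Type} [Group G] {E : Ext G} {I : Type} [Fintype I] (C : Cx E I)

theorem Cx.one_mem_U (j : I) : (1 : G) ∈ C.U j := (C.mem_U j 1).2 (one_mem _)

theorem Cx.wt_pos {q : G → ℝ} (hq : Wt E q) (j : I) : 0 < C.wt q j :=
  Finset.sum_pos (fun u _ => hq.pos u) ⟨1, C.one_mem_U j⟩

theorem Cx.P_apply (q : G → ℝ) (F : Ell (I × G)) (j : I) (g : G) :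
    C.P q F (j, g) = ∑ v ∈ C.U j,
      ((Real.sqrt (q (C.up j g)) * Real.sqrt (q v) / C.wt q j : ℝ) : ℂ) *
        F (j, v * (C.up j g)⁻¹ * g) := by
  have hup : C.up j g ∈ C.U j := (C.mem_U j _).2 (C.up_mem j g)
  rw [← F17.ev_apply (j, g) (C.P q F)]
  unfold Cx.P
  rw [sum_apply, map_sum, Finset.sum_eq_single j]
  · rw [sum_apply, map_sum, Finset.sum_eq_single (C.up j g)]
    · rw [sum_apply, map_sum]
      refine Finset.sum_congr rfl fun v _ => ?_
      rw [smul_apply, map_smul, F17.ev_apply, ContinuousLinearMap.comp_apply,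
        msk_apply, if_pos (by exact ⟨rfl, rfl⟩), pm_apply, lm_apply, smul_eq_mul]
    · intro u _ hu
      rw [sum_apply, map_sum]
      refine Finset.sum_eq_zero fun v _ => ?_
      rw [smul_apply, map_smul, F17.ev_apply, ContinuousLinearMap.comp_apply,
        msk_apply, if_neg (fun h => hu h.2.symm), smul_zero]
    · intro h
      exact absurd hup h
  · intro k _ hk
    rw [sum_apply, map_sum]
    refine Finset.sum_eq_zero fun u _ => ?_
    rw [sum_apply, map_sum]
    refine Finset.sum_eq_zero fun v _ => ?_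
    rw [smul_apply, map_smul, F17.ev_apply, ContinuousLinearMap.comp_apply,
      msk_apply, if_neg (fun h => hk h.1.symm), smul_zero]
  · intro h
    exact absurd (Finset.mem_univ j) h

theorem Cx.inM_P {q : G → ℝ} (hq : Wt E q) (F : Ell (I × G)) : InM C q (C.P q F) := by
  rw [C.inM_iff q hq]
  intro j g
  have hm : C.up j ((C.up j g)⁻¹ * g) = 1 := by
    rw [C.up_mul j g (inv_mem (C.up_mem j g)), inv_mul_cancel]
  rw [C.P_apply, C.P_apply, hm, hq.one, Real.sqrt_one, Finset.mul_sum]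
  refine Finset.sum_congr rfl fun v _ => ?_
  rw [show v * 1⁻¹ * ((C.up j g)⁻¹ * g) = v * (C.up j g)⁻¹ * g by group]
  push_cast
  ring

theorem Cx.P_of_inM {q : G → ℝ} (hq : Wt E q) (F : Ell (I × G)) (hF : InM C q F) :
    C.P q F = F := by
  refine ell_ext fun p => ?_
  obtain ⟨j, g⟩ := p
  have hw := C.wt_pos hq j
  rw [C.inM_iff q hq] at hF
  rw [C.P_apply]
  have h1 : ∀ v ∈ C.U j, ((Real.sqrt (q (C.up j g)) * Real.sqrt (q v) / C.wt q j : ℝ) : ℂ) *
      F (j, v * (C.up j g)⁻¹ * g) =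
      ((q v : ℝ) : ℂ) * (((Real.sqrt (q (C.up j g)) / C.wt q j : ℝ) : ℂ) *
        F (j, (C.up j g)⁻¹ * g)) := by
    intro v hv
    have hv' := (C.mem_U j v).1 hv
    have h2 := hF j (v * (C.up j g)⁻¹ * g)
    have h3 : C.up j (v * (C.up j g)⁻¹ * g) = v := by
      rw [C.up_mul j g (mul_mem hv' (inv_mem (C.up_mem j g)))]; group
    rw [h3, show v⁻¹ * (v * (C.up j g)⁻¹ * g) = (C.up j g)⁻¹ * g by group] at h2
    rw [h2]
    have h4 : ((q v : ℝ) : ℂ) = ((Real.sqrt (q v) : ℝ) : ℂ) * ((Real.sqrt (q v) : ℝ) : ℂ) := by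
      rw [← Complex.ofReal_mul, Real.mul_self_sqrt (hq.pos v).le]
    rw [h4]
    push_cast
    ring
  rw [Finset.sum_congr rfl h1, ← Finset.sum_mul, hF j g]
  have h5 : (∑ v ∈ C.U j, ((q v : ℝ) : ℂ)) = ((C.wt q j : ℝ) : ℂ) := by
    rw [Cx.wt]; push_cast; rfl
  rw [h5]
  have h6 : ((C.wt q j : ℝ) : ℂ) ≠ 0 := Complex.ofReal_ne_zero.2 hw.ne'
  push_cast
  field_simp

theorem Cx.adjoint_P (q : G → ℝ) : ContinuousLinearMap.adjoint (C.P q) = C.P q := by
  unfold Cx.P
  rw [map_sum]
  refine Finset.sum_congr rfl fun j _ => ?_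
  rw [map_sum]
  have key : ∀ u ∈ C.U j, ∀ v ∈ C.U j, ContinuousLinearMap.adjoint
      (((Real.sqrt (q u) * Real.sqrt (q v) / C.wt q j : ℝ) : ℂ) •
      (msk {p : I × G | p.1 = j ∧ C.up j p.2 = u} ∘L pm (lm I (v * u⁻¹)))) =
      ((Real.sqrt (q v) * Real.sqrt (q u) / C.wt q j : ℝ) : ℂ) •
      (msk {p : I × G | p.1 = j ∧ C.up j p.2 = v} ∘L pm (lm I (u * v⁻¹))) := by
    intro u hu v hv
    rw [map_smulₛₗ, ContinuousLinearMap.adjoint_comp, adjoint_pm, adjoint_msk, Complex.conj_ofReal,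
      mul_comm (Real.sqrt (q u))]
    congr 1
    refine ContinuousLinearMap.ext fun F => ell_ext fun p => ?_
    obtain ⟨k, g⟩ := p
    rw [ContinuousLinearMap.comp_apply, ContinuousLinearMap.comp_apply, pm_apply, msk_apply,
      msk_apply, pm_apply, lm_apply]
    have e1 : (lm I (v * u⁻¹))⁻¹ (k, g) = (k, u * v⁻¹ * g) := by
      rw [Equiv.Perm.inv_eq_iff_eq, lm_apply]
      change (k, g) = (k, v * u⁻¹ * (u * v⁻¹ * g))
      congr 1
      group
    rw [e1]
    have hu' := (C.mem_U j u).1 hu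
    have hv' := (C.mem_U j v).1 hv
    have e2 : ((k, u * v⁻¹ * g) ∈ {p : I × G | p.1 = j ∧ C.up j p.2 = u}) ↔
        ((k, g) ∈ {p : I × G | p.1 = j ∧ C.up j p.2 = v}) := by
      simp only [Set.mem_ofPred_eq]
      refine and_congr_right fun _ => ?_
      rw [C.up_mul j g (mul_mem hu' (inv_mem hv'))]
      constructor
      · intro h
        have : v⁻¹ * C.up j g = 1 := by
          have h3 : u * (v⁻¹ * C.up j g) = u * 1 := by rw [← mul_assoc, h, mul_one]
          exact mul_left_cancel h3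
        exact (inv_mul_eq_one.1 this).symm
      · intro h
        rw [h]; group
    simp only [e2]
  rw [Finset.sum_congr rfl fun u hu => (by
    rw [map_sum]
    exact Finset.sum_congr rfl fun v hv => key u hu v hv : ContinuousLinearMap.adjoint
      (∑ v ∈ C.U j, ((Real.sqrt (q u) * Real.sqrt (q v) / C.wt q j : ℝ) : ℂ) •
      (msk {p : I × G | p.1 = j ∧ C.up j p.2 = u} ∘L pm (lm I (v * u⁻¹)))) =
      ∑ v ∈ C.U j, ((Real.sqrt (q v) * Real.sqrt (q u) / C.wt q j : ℝ) : ℂ) •
      (msk {p : I × G | p.1 = j ∧ C.up j p.2 = v} ∘L pm (lm I (u * v⁻¹))))]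
  exact Finset.sum_comm

theorem Cx.P_dl (q : G → ℝ) (hq : Wt E q) (j : I) :
    C.P q (dl (j, 1)) (j, 1) = ((1 / C.wt q j : ℝ) : ℂ) := by
  rw [C.P_apply, C.up_one, Finset.sum_eq_single 1]
  · rw [dl_apply, if_pos (by simp), hq.one, Real.sqrt_one]
    push_cast
    ring
  · intro v _ hv
    rw [dl_apply, if_neg, mul_zero]
    intro h
    apply hv
    have := congrArg Prod.snd h
    simpa using this
  · intro h
    exact absurd (C.one_mem_U j) h

theorem Cx.fs_P (q : G → ℝ) : FS (C.P q) := by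
  unfold Cx.P
  refine F17.fs_sum _ _ fun j _ => F17.fs_sum _ _ fun u _ => F17.fs_sum _ _ fun v _ => ?_
  exact F17.fs_smul _ (F17.fs_comp (F17.fs_msk _) (F17.fs_pm _))

theorem Cx.P_msk (q : G → ℝ) (A : Set I) :
    C.P q ∘L msk {p : I × G | p.1 ∈ A} = msk {p : I × G | p.1 ∈ A} ∘L C.P q := by
  refine ContinuousLinearMap.ext fun F => ell_ext fun p => ?_
  obtain ⟨j, g⟩ := p
  rw [ContinuousLinearMap.comp_apply, ContinuousLinearMap.comp_apply, C.P_apply, msk_apply,
    C.P_apply]
  by_cases hj : j ∈ A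
  · rw [if_pos (by exact hj)]
    refine Finset.sum_congr rfl fun v _ => ?_
    rw [msk_apply, if_pos (by exact hj)]
  · rw [if_neg (by exact hj)]
    refine Finset.sum_eq_zero fun v _ => ?_
    rw [msk_apply, if_neg (by exact hj), mul_zero]

end

theorem t_PROJ (G : Type) [Group G] (E : Ext G) (I : Type) [Fintype I] (C : Cx E I) :
    S_PROJ G E I C :=
  fun q hq => ⟨fun F => C.inM_P hq F, fun F hF => C.P_of_inM hq F hF, C.adjoint_P q,
    fun j => C.P_dl q hq j, C.fs_P q, fun A => C.P_msk q A⟩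

end

end Pool.Agent.Q169.ZD
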