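import Pool.Agent.Q169.ZD.Stm

set_option autoImplicit false

open scoped InnerProductSpace

namespace Pool.Agent.Q169.ZD

open Pool.Agent.H496R3.ZS (Ell permIso dl dl_apply inner_dl_left)

noncomputable section

open scoped Classical

namespace T17

variable {G : Type} [Group G] {E : Ext G} {I : Type}

theorem rm_inv_apply (h : G) (p : I × G) : (rm I h)⁻¹ p = (p.1, p.2 * h⁻¹) := by
  rw [Equiv.Perm.inv_eq_iff_eq, rm_apply]
  simp

theorem rS_dl (q : G → ℝ) {s : G} (hs : s * s = 1) (j : I) (y : G)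
    (h : E.len y < E.len (y * s)) :
    rS E I q s (dl (j, y)) = ((Real.sqrt (q s) : ℝ) : ℂ) • dl (j, y * s) := by
  have hs' : s⁻¹ = s := by rw [inv_eq_iff_mul_eq_one]; exact hs
  have h1 : rS E I q s (dl (j, y)) = ((Real.sqrt (q s) : ℝ) : ℂ) • pm (rm I s) (dl (j, y)) +
      ((q s - 1 : ℝ) : ℂ) • msk {p : I × G | E.len (p.2 * s) < E.len p.2} (dl (j, y)) := rfl
  rw [h1, pm_dl, msk_dl, rm_inv_apply, hs', if_neg, smul_zero, add_zero]
  intro h2
  have h3 : E.len (y * s) < E.len y := h2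
  omega

theorem adjoint_rS (q : G → ℝ) {s : G} (hs : s * s = 1) :
    ContinuousLinearMap.adjoint (rS E I q s) = rS E I q s := by
  have hs' : s⁻¹ = s := by rw [inv_eq_iff_mul_eq_one]; exact hs
  have h0 : (rm I s)⁻¹ = rm I s := by
    refine Equiv.ext fun p => ?_
    rw [rm_inv_apply, rm_apply, hs']
  rw [rS, map_add, map_smulₛₗ, map_smulₛₗ, adjoint_pm, adjoint_msk, Complex.conj_ofReal,
    Complex.conj_ofReal, h0]

theorem exists_rho (q : G → ℝ) (hq : Wt E q) : ∀ (n : ℕ) (g : G), E.len g = n →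
    ∃ ρ : Ell (I × G) →L[ℂ] Ell (I × G),
      (∀ x, Comm E I q x → x ∘L ρ = ρ ∘L x) ∧
      (∀ j y, E.len (y * g) = E.len y + E.len g → ρ (dl (j, y)) = dl (j, y * g)) ∧
      (∀ j y, E.len (y * g⁻¹) = E.len y + E.len g →
        ContinuousLinearMap.adjoint ρ (dl (j, y)) = dl (j, y * g⁻¹)) := by
  intro n
  induction n using Nat.strong_induction_on with
  | _ n ih =>
    intro g hg
    by_cases h0 : E.len g = 0
    · refine ⟨rH I g⁻¹, fun x hx => hx.2 g⁻¹ (by rw [E.len_inv, h0]), fun j y _ => ?_,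
        fun j y _ => ?_⟩
      · rw [rH, pm_dl, rm_inv_apply, inv_inv]
      · rw [rH, adjoint_pm, pm_dl, inv_inv, rm_apply]
    · obtain ⟨s, hsS, hlt⟩ := E.desc g h0
      have hs := E.sq s hsS
      have hs' : s⁻¹ = s := by rw [inv_eq_iff_mul_eq_one]; exact hs
      have hlen : E.len g = E.len (g * s) + 1 := by
        rcases E.len_muls s hsS g with h | h <;> omega
      obtain ⟨ρ, h1, h2, h3⟩ := ih (E.len (g * s)) (by omega) (g * s) rfl
      have hsq : ((Real.sqrt (q s) : ℝ) : ℂ) ≠ 0 :=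
        Complex.ofReal_ne_zero.2 (Real.sqrt_pos.2 (hq.pos s)).ne'
      refine ⟨((Real.sqrt (q s) : ℝ) : ℂ)⁻¹ • (rS E I q s ∘L ρ), fun x hx => ?_, fun j y hy => ?_,
        fun j y hy => ?_⟩
      · rw [ContinuousLinearMap.comp_smul, ContinuousLinearMap.smul_comp,
          ← ContinuousLinearMap.comp_assoc, hx.1 s hsS, ContinuousLinearMap.comp_assoc, h1 x hx,
          ContinuousLinearMap.comp_assoc]
      · have e1 : E.len (y * (g * s)) ≤ E.len y + E.len (g * s) := E.len_mul _ _
        have e2 : y * (g * s) * s = y * g := by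
          rw [mul_assoc, mul_assoc, hs, mul_one]
        have e3 := E.len_muls s hsS (y * (g * s))
        rw [e2] at e3
        have e4 : E.len (y * (g * s)) = E.len y + E.len (g * s) := by omega
        have e5 : E.len (y * (g * s)) < E.len (y * (g * s) * s) := by rw [e2]; omega
        change ((Real.sqrt (q s) : ℝ) : ℂ)⁻¹ • (rS E I q s (ρ (dl (j, y)))) = _
        rw [h2 j y e4, rS_dl q hs j _ e5, e2, smul_smul, inv_mul_cancel₀ hsq, one_smul]
      · have e0 : (y * s) * (g * s)⁻¹ = y * g⁻¹ := by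
          rw [mul_inv_rev, hs', ← mul_assoc, mul_assoc y s s, hs, mul_one]
        have e1 : E.len ((y * s) * (g * s)⁻¹) ≤ E.len (y * s) + E.len (g * s)⁻¹ := E.len_mul _ _
        rw [e0, E.len_inv] at e1
        have e3 := E.len_muls s hsS y
        have e4 : E.len y < E.len (y * s) := by omega
        have e5 : E.len ((y * s) * (g * s)⁻¹) = E.len (y * s) + E.len (g * s) := by
          rw [e0]; omega
        rw [map_smulₛₗ, ContinuousLinearMap.adjoint_comp, adjoint_rS q hs]
        change (starRingEnd ℂ) ((Real.sqrt (q s) : ℝ) : ℂ)⁻¹ •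
          (ContinuousLinearMap.adjoint ρ (rS E I q s (dl (j, y)))) = _
        rw [rS_dl q hs j y e4, map_smul, h3 j _ e5, e0, map_inv₀, Complex.conj_ofReal, smul_smul,
          inv_mul_cancel₀ hsq, one_smul]

variable [Fintype I]

theorem coef_comp (q : G → ℝ) (hq : Wt E q) (x y : Ell (I × G) →L[ℂ] Ell (I × G))
    (hy : Comm E I q y) (S : Finset G)
    (hS : ∀ j k g, x (dl (j, 1)) (k, g) ≠ 0 → g ∈ S) (j : I) :
    (y ∘L x) (dl (j, 1)) (j, 1) =
      ∑ k, ∑ g ∈ S, x (dl (j, 1)) (k, g) * y (dl (k, 1)) (j, g⁻¹) := by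
  have h1 : x (dl (j, 1)) = ∑ k, ∑ g ∈ S, x (dl (j, 1)) (k, g) • dl (k, g) := by
    refine ell_ext fun p => ?_
    obtain ⟨k, g⟩ := p
    have h2 : ∀ (F : Ell (I × G)), F (k, g) = ⟪dl (k, g), F⟫_ℂ := fun F => (inner_dl _ _).symm
    rw [h2 (∑ k, ∑ g ∈ S, x (dl (j, 1)) (k, g) • dl (k, g)), inner_sum,
      Finset.sum_eq_single k]
    · rw [inner_sum]
      by_cases hg : g ∈ S
      · rw [Finset.sum_eq_single g]
        · rw [inner_smul_right, inner_dl, dl_apply, if_pos rfl, mul_one]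
        · intro g' _ hne
          rw [inner_smul_right, inner_dl, dl_apply, if_neg, mul_zero]
          intro h
          exact hne (congrArg Prod.snd h).symm
        · intro h
          exact absurd hg h
      · rw [Finset.sum_eq_zero]
        · by_contra h
          exact hg (hS j k g h)
        · intro g' hg'
          rw [inner_smul_right, inner_dl, dl_apply, if_neg, mul_zero]
          intro h
          have : g = g' := congrArg Prod.snd h
          exact hg (this ▸ hg')
    · intro k' _ hne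
      rw [inner_sum]
      refine Finset.sum_eq_zero fun g' _ => ?_
      rw [inner_smul_right, inner_dl, dl_apply, if_neg, mul_zero]
      intro h
      exact hne (congrArg Prod.fst h).symm
    · intro h
      exact absurd (Finset.mem_univ k) h
  have h3 : ∀ (k : I) (g : G), ⟪dl (j, 1), y (dl (k, g))⟫_ℂ = y (dl (k, 1)) (j, g⁻¹) := by
    intro k g
    obtain ⟨ρ, r1, r2, r3⟩ := exists_rho (I := I) q hq (E.len g) g rfl
    have e1 : dl (k, g) = ρ (dl (k, 1)) := by
      rw [r2 k 1 (by rw [one_mul, E.len_one, zero_add]), one_mul]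
    have e2 : y (ρ (dl (k, 1))) = ρ (y (dl (k, 1))) := by
      have := congrArg (fun T : Ell (I × G) →L[ℂ] Ell (I × G) => T (dl (k, 1))) (r1 y hy)
      exact this
    rw [e1, e2, ← ContinuousLinearMap.adjoint_inner_left,
      r3 j 1 (by rw [one_mul, E.len_one, zero_add, E.len_inv]), one_mul, inner_dl]
  rw [← inner_dl (j, 1), ContinuousLinearMap.comp_apply]
  conv_lhs => rw [h1]
  rw [map_sum, inner_sum]
  refine Finset.sum_congr rfl fun k _ => ?_
  rw [map_sum, inner_sum]
  refine Finset.sum_congr rfl fun g _ => ?_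
  rw [map_smul, inner_smul_right, h3]

theorem exists_S (x : Ell (I × G) →L[ℂ] Ell (I × G)) (hx : FS x) :
    ∃ S : Finset G, ∀ j k g, x (dl (j, 1)) (k, g) ≠ 0 → g ∈ S := by
  have h1 : ∀ j : I, (Function.support (fun p => x (dl (j, (1 : G))) p)).Finite := by
    intro j
    refine hx _ ((Set.finite_singleton (j, (1 : G))).subset fun p hp => ?_)
    by_contra h
    apply hp
    change (dl (j, (1 : G)) : I × G → ℂ) p = 0
    rw [dl_apply, if_neg (by exact h)]
  refine ⟨Finset.univ.biUnion fun j => (h1 j).toFinset.image Prod.snd, fun j k g h => ?_⟩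
  rw [Finset.mem_biUnion]
  refine ⟨j, Finset.mem_univ j, ?_⟩
  rw [Finset.mem_image]
  exact ⟨(k, g), by rw [Set.Finite.mem_toFinset]; exact h, rfl⟩

end T17

theorem t_TRACE (G : Type) [Group G] (E : Ext G) (I : Type) [Fintype I] : S_TRACE G E I := by
  intro q hq x y hx hy fx fy
  obtain ⟨Sx, hSx⟩ := T17.exists_S x fx
  obtain ⟨Sy, hSy⟩ := T17.exists_S y fy
  set S : Finset G := (Sx ∪ Sy) ∪ (Sx ∪ Sy).image (fun g => g⁻¹) with hS
  have m1 : ∀ j k g, x (dl (j, 1)) (k, g) ≠ 0 → g ∈ S := fun j k g h =>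
    Finset.mem_union_left _ (Finset.mem_union_left _ (hSx j k g h))
  have m2 : ∀ j k g, y (dl (j, 1)) (k, g) ≠ 0 → g ∈ S := fun j k g h =>
    Finset.mem_union_left _ (Finset.mem_union_right _ (hSy j k g h))
  have hinv : ∀ g ∈ S, g⁻¹ ∈ S := by
    intro g hg
    rw [hS, Finset.mem_union] at hg ⊢
    rcases hg with h | h
    · exact Or.inr (Finset.mem_image_of_mem _ h)
    · rw [Finset.mem_image] at h
      obtain ⟨g', h1, h2⟩ := h
      left
      rw [← h2, inv_inv]
      exact h1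
  have a1 : Tr (x ∘L y) = ∑ j, ∑ k, ∑ g ∈ S, y (dl (j, 1)) (k, g) * x (dl (k, 1)) (j, g⁻¹) :=
    Finset.sum_congr rfl fun j _ => T17.coef_comp q hq y x hx S m2 j
  have a2 : Tr (y ∘L x) = ∑ j, ∑ k, ∑ g ∈ S, x (dl (j, 1)) (k, g) * y (dl (k, 1)) (j, g⁻¹) :=
    Finset.sum_congr rfl fun j _ => T17.coef_comp q hq x y hy S m1 j
  rw [a1, a2, Finset.sum_comm]
  refine Finset.sum_congr rfl fun k _ => Finset.sum_congr rfl fun j _ => ?_
  refine Finset.sum_nbij' (fun g => g⁻¹) (fun g => g⁻¹) hinv hinv (fun g _ => inv_inv g)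
    (fun g _ => inv_inv g) fun g _ => ?_
  rw [inv_inv, mul_comm]

end

end Pool.Agent.Q169.ZD
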