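import Pool.Agent.Q169.ZD.Stm

set_option autoImplicit false

namespace Pool.Agent.Q169.ZD

open Pool.Agent.H496R3.ZS (Ell permIso dl dl_apply inner_dl_left)

section

variable {G : Type} [Group G] {E : Ext G}

theorem Ext.eq_one_of_len (E : Ext G) (T : Set G) (hT : T ⊆ E.S) {x : G}
    (hx : x ∈ Subgroup.closure T) (h0 : E.len x = 0) : x = 1 := by
  by_contra h
  obtain ⟨t, -, ht⟩ := E.par_desc T hT x hx h
  omega

theorem Ext.uniq (E : Ext G) (T : Set G) (hT : T ⊆ E.S) {u u' m m' : G}
    (hu : u ∈ Subgroup.closure T) (hu' : u' ∈ Subgroup.closure T)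
    (hm : ∀ t ∈ T, E.len m < E.len (t * m)) (hm' : ∀ t ∈ T, E.len m' < E.len (t * m'))
    (h : u * m = u' * m') : u = u' := by
  have h1 : m' = (u'⁻¹ * u) * m := by rw [mul_assoc, h]; group
  have h2 : m = (u⁻¹ * u') * m' := by rw [mul_assoc, ← h]; group
  have hx : u'⁻¹ * u ∈ Subgroup.closure T := mul_mem (inv_mem hu') hu
  have hy : u⁻¹ * u' ∈ Subgroup.closure T := mul_mem (inv_mem hu) hu'
  have e1 := E.par_len T hT _ hx m hm
  have e2 := E.par_len T hT _ hy m' hm'
  rw [← h1] at e1
  rw [← h2] at e2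
  have h3 : E.len (u'⁻¹ * u) = 0 := by omega
  have h4 := E.eq_one_of_len T hT hx h3
  exact (inv_mul_eq_one.1 h4).symm

theorem Ext.len_lt_of_one (E : Ext G) {t : G} (ht : t ∈ E.S) : E.len 1 < E.len (t * 1) := by
  rcases E.len_smul t ht 1 with h | h
  · omega
  · rw [E.len_one] at h; omega

variable {I : Type} [Fintype I] (C : Cx E I)

theorem Cx.up_mem (j : I) (g : G) : C.up j g ∈ Subgroup.closure (C.T j) :=
  (Classical.choose_spec (E.par_decomp (C.T j) (C.sub j) g)).1

theorem Cx.up_min (j : I) (g : G) :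
    ∀ t ∈ C.T j, E.len ((C.up j g)⁻¹ * g) < E.len (t * ((C.up j g)⁻¹ * g)) := by
  obtain ⟨m, hm, h⟩ := (Classical.choose_spec (E.par_decomp (C.T j) (C.sub j) g)).2
  have h1 : (C.up j g)⁻¹ * g = m := by
    have h2 : g = C.up j g * m := h
    calc (C.up j g)⁻¹ * g = (C.up j g)⁻¹ * (C.up j g * m) := by rw [← h2]
      _ = m := by group
  rw [h1]
  exact hm

theorem Cx.up_eq (j : I) {u m : G} (hu : u ∈ Subgroup.closure (C.T j))
    (hm : ∀ t ∈ C.T j, E.len m < E.len (t * m)) : C.up j (u * m) = u := by
  refine E.uniq (C.T j) (C.sub j) (C.up_mem j _) hu (C.up_min j (u * m)) hm ?_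
  group

theorem Cx.up_mul (j : I) (g : G) {v : G} (hv : v ∈ Subgroup.closure (C.T j)) :
    C.up j (v * g) = v * C.up j g := by
  have h := C.up_eq j (mul_mem hv (C.up_mem j g)) (C.up_min j g)
  rwa [show v * C.up j g * ((C.up j g)⁻¹ * g) = v * g by group] at h

theorem Cx.up_one (j : I) : C.up j 1 = 1 := by
  have h := C.up_eq j (one_mem (Subgroup.closure (C.T j))) (m := 1)
    (fun t ht => E.len_lt_of_one (C.sub j ht))
  rwa [mul_one] at h

theorem Cx.len_up (j : I) (g : G) :
    E.len g = E.len (C.up j g) + E.len ((C.up j g)⁻¹ * g) := by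
  have h := E.par_len (C.T j) (C.sub j) _ (C.up_mem j g) _ (C.up_min j g)
  rwa [show C.up j g * ((C.up j g)⁻¹ * g) = g by group] at h

theorem Cx.len_up_mul (j : I) (g : G) {v : G} (hv : v ∈ Subgroup.closure (C.T j)) :
    E.len (v * g) = E.len (v * C.up j g) + E.len ((C.up j g)⁻¹ * g) := by
  have h := C.len_up j (v * g)
  rw [C.up_mul j g hv] at h
  rwa [show (v * C.up j g)⁻¹ * (v * g) = (C.up j g)⁻¹ * g by group] at h

theorem Cx.up_lt (j : I) (g : G) {t : G} (ht : t ∈ C.T j) :
    E.len g < E.len (t * g) ↔ E.len (C.up j g) < E.len (t * C.up j g) := by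
  have h1 := C.len_up j g
  have h2 := C.len_up_mul j g (Subgroup.subset_closure ht)
  omega

theorem Cx.inM_iff (q : G → ℝ) (hq : Wt E q) (F : I × G → ℂ) : InM C q F ↔
    ∀ j g, F (j, g) = ((Real.sqrt (q (C.up j g)) : ℝ) : ℂ) * F (j, (C.up j g)⁻¹ * g) := by
  constructor
  · intro hF j g
    have key : ∀ n : ℕ, ∀ u ∈ Subgroup.closure (C.T j), E.len u = n → ∀ m,
        (∀ t ∈ C.T j, E.len m < E.len (t * m)) →
        F (j, u * m) = ((Real.sqrt (q u) : ℝ) : ℂ) * F (j, m) := by
      intro n
      induction n using Nat.strong_induction_on with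
      | _ n ih =>
        intro u hu hn m hm
        by_cases h1 : u = 1
        · subst h1
          rw [one_mul, hq.one, Real.sqrt_one]
          push_cast
          rw [one_mul]
        · obtain ⟨t, ht, htu⟩ := E.par_desc (C.T j) (C.sub j) u hu h1
          have htS := C.sub j ht
          have htt := E.sq t htS
          have hu' : t * u ∈ Subgroup.closure (C.T j) := mul_mem (Subgroup.subset_closure ht) hu
          have hback : t * (t * u) = u := by rw [← mul_assoc, htt, one_mul]
          have hl1 := E.par_len (C.T j) (C.sub j) _ hu' m hm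
          have hl2 := E.par_len (C.T j) (C.sub j) _ hu m hm
          have hlt : E.len (t * u * m) < E.len (t * (t * u * m)) := by
            rw [show t * (t * u * m) = (t * (t * u)) * m by group, hback]
            omega
          have e1 := hF j t ht (t * u * m) hlt
          rw [show t * (t * u * m) = (t * (t * u)) * m by group, hback] at e1
          have e2 := ih (E.len (t * u)) (by omega) (t * u) hu' rfl m hm
          have e3 : q u = q t * q (t * u) := by
            have := hq.smul t htS (t * u) (by rw [hback]; exact htu)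
            rwa [hback] at this
          rw [e1, e2, e3, Real.sqrt_mul (hq.pos t).le]
          push_cast
          ring
    have h := key _ (C.up j g) (C.up_mem j g) rfl _ (C.up_min j g)
    rwa [show C.up j g * ((C.up j g)⁻¹ * g) = g by group] at h
  · intro h j t ht g hg
    have e1 := h j (t * g)
    have e2 := h j g
    rw [C.up_mul j g (Subgroup.subset_closure ht),
      show (t * C.up j g)⁻¹ * (t * g) = (C.up j g)⁻¹ * g by group,
      hq.smul t (C.sub j ht) (C.up j g) ((C.up_lt j g ht).1 hg), Real.sqrt_mul (hq.pos t).le] at e1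
    rw [e1, e2]
    push_cast
    ring

end

theorem t_UP (G : Type) [Group G] (E : Ext G) (I : Type) [Fintype I] (C : Cx E I) :
    S_UP G E I C :=
  ⟨C.up_mem, C.up_min, fun j g _ hv => C.up_mul j g hv, C.up_one,
    fun j g _ ht => C.up_lt j g ht, fun q hq F => C.inM_iff q hq F⟩

end Pool.Agent.Q169.ZD
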